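import Mathlib
import Pool.Agent.Lib.MP_ead56d_lc.Final
import Pool.Agent.Lib.MP_ead56d_lc.CFImage

/-! A principal, translatable, product-closed rational cone inside the context-free languages that
does not contain the marked palindromes.  It is generated by the language `LL` of
`Pool.Agent.Lib.MP_ead56d_lc.Cone`. -/

namespace Pool.Agent.Results.MP_ead56d_lc.SmallCone

open Pool.Agent.Lib.MP_ead56d_lc

theorem result : ∃ C : Set (Language ℕ), IsRationalCone C ∧
    (∃ L : Language ℕ, HasFiniteAlphabet L ∧ L.IsContextFree ∧ C = coneGeneratedBy L) ∧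
    IsProductClosed C ∧ IsTranslatable C ∧ (∃ K ∈ C, ∃ w, w ∈ K) ∧
    (∀ K ∈ C, K.IsContextFree) ∧ markedPalindromes.IsContextFree ∧ markedPalindromes ∉ C := by
  refine ⟨{K | IsRationalImage LL K}, isRationalCone_images LL,
    ⟨LL, LL_finite, LL_contextFree, (coneGeneratedBy_eq LL_finite).symm⟩,
    fun _ h₁ _ h₂ => images_mul h₁ h₂, fun _ h a b _ _ => images_translate h a b,
    ⟨LL, IsRationalImage.refl LL_finite, [], InL.nil⟩,
    fun _ h => IsRationalImage.contextFree LL_contextFree h,
    markedPalindromes_contextFree, not_image⟩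

end Pool.Agent.Results.MP_ead56d_lc.SmallCone
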